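import Pool.Agent.H96.RK.Model
import Pool.Agent.H96.RK.Volume

set_option autoImplicit false

/-!
The complete k-graph on `k s + k - 1` vertices is not a largest (k - 1)-resilient k-graph with
matching number `s`: for `k = 600` and every large `s` there are such k-graphs with more than
`42 * binom(k s + k - 1, k)` members.

The example. Vertices: a set `A` with `320 f + 319` elements, seven sets `B_0, ..., B_6` with
`120 m + 40 f - 1` elements each, and for each `c` in `ℤ/7m` and each point `z` of the affine
plane of order 3 a group `G(c, z)` with 79 elements. The set `B_o` contains pairwise disjoint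
windows `W_p` with 239 elements, one for each `p` in `ℤ/7m` with `p ≡ o` modulo 7.
Dense edges: 600-sets with at least 320 elements in `A` and at least 40 elements in each `B_o`.
Sparse edges at `p`: 600-sets with at least 120 elements in `W_p` such that, for each `j < 4`,
there is a line of the `j`-th parallel class with at least 40 elements of the edge in
`G(p - r_j, z)` for all its three points `z`; here `r = (0, 1, 4, 6)` is a perfect ruler.
The matching number is `f + m - 1`, and no deletion of 599 vertices lowers it.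
-/

namespace Pool.Agent.Results.MP_c3ace4_co.Disproof

/-- The members of `M` are pairwise disjoint. -/
def IsMatching {n : ℕ} (M : Finset (Finset (Fin n))) : Prop :=
  ∀ a ∈ M, ∀ b ∈ M, a ≠ b → Disjoint a b

open Classical in
/-- The matching number: the largest number of pairwise disjoint members of `F`. -/
noncomputable def nu {n : ℕ} (F : Finset (Finset (Fin n))) : ℕ :=
  (F.powerset.filter IsMatching).sup Finset.card

open Classical in
/-- `F` is `t`-resilient: deleting any at most `t` vertices does not lower the matching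
number. -/
def Resilient {n : ℕ} (t : ℕ) (F : Finset (Finset (Fin n))) : Prop :=
  ∀ T : Finset (Fin n), T.card ≤ t → nu (F.filter (fun f => Disjoint f T)) = nu F

/-- `m(k, s)`: the largest number of members of a `(k - 1)`-resilient `k`-graph with matching
number `s`, over all vertex sets `[n]`. -/
noncomputable def m (k s : ℕ) : ℕ :=
  sSup {c : ℕ | ∃ (n : ℕ) (F : Finset (Finset (Fin n))),
    (∀ f ∈ F, f.card = k) ∧ Resilient (k - 1) F ∧ nu F = s ∧ F.card = c}

lemma nu_eq {n : ℕ} (F : Finset (Finset (Fin n))) : nu F = Pool.Agent.H49.Res.nu F := by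
  rw [nu, Pool.Agent.H49.Res.nu]
  rfl

lemma res_iff {n t : ℕ} (F : Finset (Finset (Fin n))) :
    Resilient t F ↔ Pool.Agent.H49.Res.Resilient t F := by
  constructor
  · intro h T hT
    have h1 := h T hT
    rw [nu_eq, nu_eq] at h1
    convert h1
  · intro h T hT
    have h1 := h T hT
    rw [nu_eq, nu_eq]
    convert h1

lemma bdd (k s : ℕ) : BddAbove {c : ℕ | ∃ (n : ℕ) (F : Finset (Finset (Fin n))),
    (∀ f ∈ F, f.card = k) ∧ Resilient (k - 1) F ∧ nu F = s ∧ F.card = c} := by
  classical
  refine ⟨(k * s) ^ k, ?_⟩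
  rintro c ⟨n, F, hk, hres, hnu, rfl⟩
  have h1 := Pool.Agent.H49.Res.deg_le (F := F) (k := k) hk ((res_iff F).1 hres) k ∅ (by simp)
  have h2 : Pool.Agent.H49.Res.deg F ∅ = F.card := by
    rw [Pool.Agent.H49.Res.deg, Finset.filter_true_of_mem]
    exact fun f _ => Finset.empty_subset f
  have h3 : Pool.Agent.H49.Res.nu F = s := (nu_eq F).symm.trans hnu
  rw [h2, h3] at h1
  exact h1

lemma lower (s : ℕ) (hs : 129004 ≤ s) : 42 * (600 * s + 599).choose 600 < m 600 s := by
  classical
  obtain ⟨q, hq⟩ : ∃ q, q = s / 5 := ⟨_, rfl⟩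
  have hdm := Nat.div_add_mod s 5
  have hr : s % 5 < 5 := Nat.mod_lt _ (by norm_num)
  rw [← hq] at hdm
  obtain ⟨f, hf⟩ : ∃ f, f + q = s + 1 := ⟨s + 1 - q, by omega⟩
  obtain ⟨N, ⟨C⟩⟩ := Pool.Agent.H96.RK.exists_config (m := q) (f := f) (a := 320) (b := 120)
    (h := 40) (τ := 40) (by omega) (by norm_num) (by norm_num) (by norm_num) (by omega)
  obtain ⟨hnu, hres⟩ := C.fam_resilient (by norm_num) (by norm_num) (by norm_num) (by norm_num)
    (by norm_num) (by omega) (by norm_num) (by omega)
  have hcount := C.count (by norm_num)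
  have hvol := Pool.Agent.H96.RK.volume q f s (by omega) (by omega) (by omega) (by omega)
  have hcA : C.A.card = 320 * f + 319 := by
    have := C.cardA
    omega
  have hcB : ∀ o, (C.B o).card = 120 * q + 40 * f - 1 := by
    intro o
    have := C.cardB o
    omega
  rw [hcA, Finset.prod_congr rfl (fun o _ => by rw [hcB o]), Finset.prod_const,
    Finset.card_univ, ZMod.card] at hcount
  refine lt_of_lt_of_le hvol (hcount.trans (le_csSup (bdd 600 s) ?_))
  refine ⟨N, C.fam, ?_, ?_, ?_, rfl⟩
  · intro E hE
    have := (C.mem_fam E).1 hE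
    omega
  · exact (res_iff _).2 hres
  · rw [nu_eq]
    omega

theorem result :
    (∀ s : ℕ, 129004 ≤ s → 42 * (600 * s + 599).choose 600 < m 600 s) ∧
      ¬ ∀ k : ℕ, 4 ≤ k → ∃ s₀ : ℕ, ∀ s : ℕ, s₀ ≤ s → m k s = (k * s + k - 1).choose k := by
  refine ⟨lower, fun h => ?_⟩
  obtain ⟨s₀, hs₀⟩ := h 600 (by norm_num)
  have h1 := hs₀ (s₀ + 129004) (by omega)
  have h2 := lower (s₀ + 129004) (by omega)
  have h3 : 600 * (s₀ + 129004) + 600 - 1 = 600 * (s₀ + 129004) + 599 := by omega
  rw [h3] at h1
  omega

end Pool.Agent.Results.MP_c3ace4_co.Disproof
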