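import Pool.Agent.H49.Res.Frac

set_option autoImplicit false

/-!
Resilient k-graphs with a small fractional matching number.

For k ≥ 2, if F is a (k - 1)-resilient k-graph with matching number s ≥ 1 and every fractional
matching of F has weight less than s + 1, then F has at most k s + k - 1 non-isolated vertices
and at most binom(k s + k - 1, k) members, with equality only for complete k-graphs.
-/

namespace Pool.Agent.Results.MP_c3ace4_co.FractionalCase

/-- The members of `M` are pairwise disjoint. -/
def IsMatching {α : Type*} (M : Finset (Finset α)) : Prop :=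
  ∀ a ∈ M, ∀ b ∈ M, a ≠ b → Disjoint a b

open Classical in
/-- The matching number: the largest number of pairwise disjoint members of `F`. -/
noncomputable def nu {α : Type*} (F : Finset (Finset α)) : ℕ :=
  (F.powerset.filter IsMatching).sup Finset.card

open Classical in
/-- `F` is `t`-resilient: deleting any at most `t` vertices does not lower the matching
number. -/
def Resilient {α : Type*} (t : ℕ) (F : Finset (Finset α)) : Prop :=
  ∀ T : Finset α, T.card ≤ t → nu (F.filter (fun f => Disjoint f T)) = nu F

open Classical in
/-- `w` is a fractional matching of `F`: nonnegative weights on the members of `F` such that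
the members through any vertex have total weight at most 1. -/
def IsFractional {α : Type*} (F : Finset (Finset α)) (w : Finset α → ℝ) : Prop :=
  (∀ f ∈ F, 0 ≤ w f) ∧ ∀ v : α, ∑ f ∈ F.filter (fun f => v ∈ f), w f ≤ 1

theorem result {α : Type*} (F : Finset (Finset α)) (k : ℕ) (hk : 2 ≤ k)
    (hu : ∀ f ∈ F, f.card = k) (hres : Resilient (k - 1) F) (hs : 1 ≤ nu F)
    (hfrac : ∀ w : Finset α → ℝ, IsFractional F w → ∑ f ∈ F, w f < (nu F : ℝ) + 1) :
    F.card ≤ (k * nu F + k - 1).choose k ∧
      (F.card = (k * nu F + k - 1).choose k →
        ∃ V : Finset α, V.card = k * nu F + k - 1 ∧ F = V.powersetCard k) := by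
  classical
  have h1 : (F.biUnion id).card ≤ k * nu F + k - 1 := by
    apply Pool.Agent.H49.Res.frac_case (F := F) (k := k) (by omega) hu hres
    intro w hw
    let w' : Finset α → ℝ := fun f => if h : f ∈ F then w ⟨f, h⟩ else 0
    have hw' : ∀ f : F, w' (f : Finset α) = w f := by
      intro f
      simp only [w', f.2, dif_pos]
    have h2 := hfrac w' (by
      constructor
      · intro f hf
        have := hw.1 ⟨f, hf⟩
        rw [← hw'] at this
        exact this
      · intro v
        have h3 := hw.2 v
        have h4 : ∑ f : F, (if v ∈ (f : Finset α) then w f else 0) =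
            ∑ f ∈ F.filter (fun f => v ∈ f), w' f := by
          rw [Finset.sum_filter, ← Finset.sum_coe_sort F (fun f => if v ∈ f then w' f else 0)]
          apply Finset.sum_congr rfl
          intro f _
          rw [hw']
        rw [← h4]
        convert h3)
    rw [← Finset.sum_coe_sort F w'] at h2
    rw [Finset.sum_congr rfl (fun f _ => hw' f)] at h2
    exact h2
  have hsub : F ⊆ (F.biUnion id).powersetCard k := by
    intro f hf
    rw [Finset.mem_powersetCard]
    exact ⟨Finset.subset_biUnion_of_mem id hf, hu f hf⟩
  have hcard := Finset.card_le_card hsub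
  rw [Finset.card_powersetCard] at hcard
  have hkn : k ≤ k * nu F + k - 1 := by
    have : k * 1 ≤ k * nu F := Nat.mul_le_mul_left k hs
    omega
  refine ⟨hcard.trans (Nat.choose_le_choose k h1), ?_⟩
  intro heq
  have h5 : (F.biUnion id).card = k * nu F + k - 1 := by
    rcases Nat.lt_or_ge (F.biUnion id).card (k * nu F + k - 1) with hlt | hge
    · exfalso
      have h6 : (F.biUnion id).card.choose k < (k * nu F + k - 1).choose k := by
        have h7 : (F.biUnion id).card.choose k ≤ (k * nu F + k - 1 - 1).choose k :=
          Nat.choose_le_choose k (by omega)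
        obtain ⟨N, hN⟩ : ∃ N, k * nu F + k - 1 = N + 1 := ⟨k * nu F + k - 1 - 1, by omega⟩
        obtain ⟨j, hj⟩ : ∃ j, k = j + 1 := ⟨k - 1, by omega⟩
        rw [hN] at h7 hkn ⊢
        rw [Nat.add_sub_cancel] at h7
        have h8 : 0 < N.choose j := Nat.choose_pos (by omega)
        have h9 : (N + 1).choose k = N.choose j + N.choose (j + 1) := by
          rw [hj, Nat.choose_succ_succ]
        have h10 : N.choose k = N.choose (j + 1) := by rw [hj]
        omega
      omega
    · omega
  refine ⟨F.biUnion id, h5, ?_⟩
  apply Finset.eq_of_subset_of_card_le hsub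
  rw [Finset.card_powersetCard, h5, heq]

end Pool.Agent.Results.MP_c3ace4_co.FractionalCase
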