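import Pool.Agent.H49.Res.Bound

set_option autoImplicit false

/-!
Upper bound for (k - 1)-resilient k-graphs.

For k ≥ 2 and every (k - 1)-resilient k-graph F with matching number s ≥ 1,
|F| ≤ ((1 + ∑_{q = 3}^{k} 1 / q!) s + 3 k ^ 3 + k) (k s) ^ (k - 1).
-/

namespace Pool.Agent.Results.MP_c3ace4_co.UpperBound

/-- The members of `M` are pairwise disjoint. -/
def IsMatching {α : Type*} (M : Finset (Finset α)) : Prop :=
  ∀ a ∈ M, ∀ b ∈ M, a ≠ b → Disjoint a b

open Classical in
/-- The matching number: the largest number of pairwise disjoint members of `F`. -/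
noncomputable def nu {α : Type*} (F : Finset (Finset α)) : ℕ :=
  (F.powerset.filter IsMatching).sup Finset.card

open Classical in
/-- `F` is `t`-resilient: deleting any at most `t` vertices does not lower the matching
number. -/
def Resilient {α : Type*} (t : ℕ) (F : Finset (Finset α)) : Prop :=
  ∀ T : Finset α, T.card ≤ t → nu (F.filter (fun f => Disjoint f T)) = nu F

theorem result {α : Type*} (F : Finset (Finset α)) (k : ℕ) (hk : 2 ≤ k)
    (hu : ∀ f ∈ F, f.card = k) (hres : Resilient (k - 1) F) (hs : 1 ≤ nu F) :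
    (F.card : ℝ) ≤
      ((1 + ∑ q ∈ Finset.Icc 3 k, (1 : ℝ) / (q.factorial : ℝ)) * nu F + (3 * (k : ℝ) ^ 3 + k)) *
        ((k : ℝ) * nu F) ^ (k - 1) := by
  have h := Pool.Agent.H49.Res.card_le_of_resilient (F := F) hk hu hres hs
  exact h

end Pool.Agent.Results.MP_c3ace4_co.UpperBound
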